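import Pool.Agent.LibRank66.Final

/-!
# The rank of almost every matroid, for a set of sizes of positive lower logarithmic density
-/

set_option autoImplicit false

namespace Pool.Agent.Results.MP_45bba5_co.LogDensity

open Pool.Agent.LibRank66

open Classical in
/-- For every `X ≥ 1` the set of all `n` such that all but at most a fraction `2 ^ (-n)` of the
isomorphism classes of matroids on `n` elements have rank `r` with `|r - n / 2| ≤ X - 1 / 2` has
lower logarithmic density at least `1 - (2 X - 1) / (2 X ^ 2)`; this is `1 / 2` for `X = 1`. -/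
theorem result (X : ℕ) (hX : 1 ≤ X) (ε : ℝ) (hε : 0 < ε) :
    ∀ᶠ N : ℕ in Filter.atTop,
      (1 - (2 * X - 1) / (2 * (X : ℝ) ^ 2) - ε) * Real.log N ≤
        ∑ n ∈ (Finset.Icc 1 N).filter (fun n => GoodFor X n), (1 : ℝ) / n :=
  main X hX ε hε

end Pool.Agent.Results.MP_45bba5_co.LogDensity
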